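import Mathlib

set_option autoImplicit false

/-!
# Products of Boolean m-algebras: a product of two Cohen algebras without homomorphism to the minimal one

`RO Y` is the complete Boolean algebra of the regular open subsets of the topological space `Y`, and
`X = ℕ → Bool` is the Cantor space.
-/

open Cardinal Set
open TopologicalSpace (Opens)

namespace Pool.Agent.H853.BoolProd

/-! ### Definitions: Boolean m-algebras and m-homomorphisms -/

/-- `B` is a Boolean `m`-algebra: all sets of at most `m` elements have joins and meets. -/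
def IsMAlg (m : Cardinal.{0}) (B : Type) [BooleanAlgebra B] : Prop :=
  ∀ s : Set B, #s ≤ m → (∃ b, IsLUB s b) ∧ ∃ b, IsGLB s b

/-- `f` is an `m`-homomorphism: a homomorphism of Boolean algebras which preserves all existing joins
and meets of at most `m` elements. -/
structure IsMHom (m : Cardinal.{0}) {A B : Type} [BooleanAlgebra A] [BooleanAlgebra B] (f : A → B) :
    Prop where
  compl : ∀ a, f aᶜ = (f a)ᶜ
  lub : ∀ (s : Set A) (a : A), #s ≤ m → IsLUB s a → IsLUB (f '' s) (f a)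
  glb : ∀ (s : Set A) (a : A), #s ≤ m → IsGLB s a → IsGLB (f '' s) (f a)

/-- The union of the images of the maps `i t` generates the Boolean `m`-algebra `B`: every subset of
`B` which contains the images and is closed under complements and joins of at most `m` elements is all
of `B`. -/
def Gen (m : Cardinal.{0}) {T : Type} {A : T → Type} {B : Type} [BooleanAlgebra B]
    (i : ∀ t, A t → B) : Prop :=
  ∀ S : Set B, (∀ t a, i t a ∈ S) → (∀ b ∈ S, bᶜ ∈ S) →
    (∀ s : Set B, s ⊆ S → #s ≤ m → ∀ b, IsLUB s b → b ∈ S) → ∀ b, b ∈ S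

/-! ### Generalities -/

section General

variable {A B : Type} [BooleanAlgebra A] [BooleanAlgebra B]

theorem glb_iff (s : Set A) (a : A) : IsGLB s a ↔ IsLUB (compl '' s) aᶜ := by
  constructor
  · rintro ⟨h1, h2⟩
    refine ⟨?_, ?_⟩
    · rintro _ ⟨x, hx, rfl⟩
      exact compl_le_compl (h1 hx)
    · intro b hb
      have : bᶜ ≤ a := h2 fun x hx => compl_le_iff_compl_le.1 (hb ⟨x, hx, rfl⟩)
      exact compl_le_iff_compl_le.1 this
  · rintro ⟨h1, h2⟩
    refine ⟨?_, ?_⟩
    · intro x hx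
      exact compl_le_compl_iff_le.1 (h1 ⟨x, hx, rfl⟩)
    · intro b hb
      have : aᶜ ≤ bᶜ := h2 (by
        rintro _ ⟨x, hx, rfl⟩
        exact compl_le_compl (hb hx))
      exact compl_le_compl_iff_le.1 this

theorem IsMHom.mk' {m : Cardinal.{0}} {f : A → B} (hc : ∀ a, f aᶜ = (f a)ᶜ)
    (hl : ∀ (s : Set A) (a : A), #s ≤ m → IsLUB s a → IsLUB (f '' s) (f a)) : IsMHom m f where
  compl := hc
  lub := hl
  glb s a hs h := by
    rw [glb_iff] at h ⊢
    have h1 : #(Compl.compl '' s : Set A) ≤ m := mk_image_le.trans hs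
    have h2 := hl _ _ h1 h
    rw [hc] at h2
    convert h2 using 1
    rw [image_image, image_image]
    exact image_congr fun x _ => (hc x).symm

variable {m : Cardinal.{0}} {f : A → B}

omit [BooleanAlgebra A] in
theorem card_pair_le (hm : ℵ₀ ≤ m) (a b : A) : #({a, b} : Set A) ≤ m :=
  ((Set.toFinite ({a, b} : Set A)).lt_aleph0.le).trans hm

theorem IsMHom.map_sup (hf : IsMHom m f) (hm : ℵ₀ ≤ m) (a b : A) : f (a ⊔ b) = f a ⊔ f b := by
  have h := hf.lub {a, b} (a ⊔ b) (card_pair_le hm a b) isLUB_pair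
  rw [image_pair] at h
  exact h.unique isLUB_pair

theorem IsMHom.map_inf (hf : IsMHom m f) (hm : ℵ₀ ≤ m) (a b : A) : f (a ⊓ b) = f a ⊓ f b := by
  have h := hf.glb {a, b} (a ⊓ b) (card_pair_le hm a b) isGLB_pair
  rw [image_pair] at h
  exact h.unique isGLB_pair

theorem IsMHom.map_bot (hf : IsMHom m f) : f ⊥ = ⊥ := by
  have h := hf.lub ∅ ⊥ (by simp) (by simp)
  rw [image_empty] at h
  exact h.unique (by simp)

theorem IsMHom.map_top (hf : IsMHom m f) : f ⊤ = ⊤ := by
  rw [← compl_bot, hf.compl, hf.map_bot, compl_bot]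

theorem IsMHom.mono (hf : IsMHom m f) (hm : ℵ₀ ≤ m) {a b : A} (h : a ≤ b) : f a ≤ f b := by
  rw [← sup_eq_right] at h ⊢
  rw [← hf.map_sup hm, h]

end General

/-! ### Regular open sets -/

section RO

/-- The Boolean algebra of the regular open subsets of `Y`. -/
abbrev RO (Y : Type) [TopologicalSpace Y] : Type := Heyting.Regular (Opens Y)

variable {Y Z : Type} [TopologicalSpace Y] [TopologicalSpace Z]

/-- membership in a regular open set -/
def Mem (y : Y) (a : RO Y) : Prop := y ∈ (a : Opens Y)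

theorem mem_le {a b : RO Y} : a ≤ b ↔ ∀ y, Mem y a → Mem y b := Iff.rfl

theorem mem_ext {a b : RO Y} (h : ∀ y, Mem y a ↔ Mem y b) : a = b :=
  le_antisymm (fun y => (h y).1) fun y => (h y).2

theorem not_mem_bot (y : Y) : ¬ Mem y (⊥ : RO Y) := fun h => h

theorem mem_top (y : Y) : Mem y (⊤ : RO Y) := trivial

theorem mem_inf {a b : RO Y} {y : Y} : Mem y (a ⊓ b) ↔ Mem y a ∧ Mem y b := Iff.rfl

theorem ne_bot_iff {a : RO Y} : a ≠ ⊥ ↔ ∃ y, Mem y a := by
  constructor
  · intro h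
    by_contra hcon
    push Not at hcon
    exact h (mem_ext fun y => ⟨fun hy => (hcon y hy).elim, fun hy => (not_mem_bot y hy).elim⟩)
  · rintro ⟨y, hy⟩ rfl
    exact not_mem_bot y hy

theorem mem_compl {a : RO Y} {y : Y} : Mem y aᶜ ↔ ∃ V : Opens Y, y ∈ V ∧ ∀ z ∈ V, ¬ Mem z a := by
  change y ∈ (a : Opens Y)ᶜ ↔ _
  rw [Opens.mem_compl]
  constructor
  · rintro ⟨V, hV, hy⟩
    refine ⟨V, hy, fun z hz hza => ?_⟩
    have h1 : z ∈ V ⊓ (a : Opens Y) := ⟨hz, hza⟩
    rw [disjoint_iff.1 hV] at h1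
    exact h1
  · rintro ⟨V, hy, hV⟩
    refine ⟨V, ?_, hy⟩
    rw [disjoint_iff]
    ext z
    constructor
    · rintro ⟨h1, h2⟩
      exact (hV z h1 h2).elim
    · intro h
      exact h.elim

/-- If an open set contained in `a` is not contained in `w`, there is an open set inside it avoiding
`w`. -/
theorem exists_of_not_le {a w : RO Y} (h : ¬ a ≤ w) : ∃ y, Mem y a ∧ Mem y wᶜ := by
  have h1 : ¬ Disjoint a wᶜ := fun h2 => h (disjoint_compl_right_iff.1 h2)
  unfold Disjoint at h1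
  push Not at h1
  obtain ⟨x, hx1, hx2, hx3⟩ := h1
  obtain ⟨y, hy⟩ := ne_bot_iff.1 (fun h0 => hx3 (h0 ▸ le_rfl))
  exact ⟨y, hx1 hy, hx2 hy⟩

/-- The complement of an open set. -/
def coOpen (U : Opens Y) : RO Y := ⟨Uᶜ, Heyting.isRegular_compl U⟩

theorem mem_coOpen {U : Opens Y} {y : Y} : Mem y (coOpen U) ↔ ∃ V : Opens Y, y ∈ V ∧ ∀ z ∈ V, z ∉ U := by
  change y ∈ Uᶜ ↔ _
  rw [Opens.mem_compl]
  constructor
  · rintro ⟨V, hV, hy⟩
    refine ⟨V, hy, fun z hz hza => ?_⟩
    have h1 : z ∈ V ⊓ U := ⟨hz, hza⟩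
    rw [disjoint_iff.1 hV] at h1
    exact h1
  · rintro ⟨V, hy, hV⟩
    refine ⟨V, ?_, hy⟩
    rw [disjoint_iff]
    ext z
    constructor
    · rintro ⟨h1, h2⟩
      exact (hV z h1 h2).elim
    · intro h
      exact h.elim

theorem exists_isLUB (s : Set (RO Y)) : ∃ a, IsLUB s a :=
  ⟨_, Heyting.Regular.gi.isLUB_of_u_image (isLUB_sSup _)⟩

theorem exists_isGLB (s : Set (RO Y)) : ∃ a, IsGLB s a := by
  obtain ⟨a, ha⟩ := exists_isLUB (compl '' s)
  refine ⟨aᶜ, ?_⟩
  rw [glb_iff, compl_compl]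
  exact ha

/-- A point of the join of `s` has in each neighbourhood a point of a member of `s`. -/
theorem exists_of_isLUB {s : Set (RO Y)} {a : RO Y} (h : IsLUB s a) {U : Opens Y} {y : Y} (hy : y ∈ U)
    (hya : Mem y a) : ∃ u ∈ s, ∃ z ∈ U, Mem z u := by
  by_contra hcon
  push Not at hcon
  have h1 : a ≤ coOpen U := h.2 (by
    intro u hu z hz
    refine mem_coOpen.2 ⟨u, hz, fun z' hz' hzU => hcon u hu z' hzU hz'⟩)
  obtain ⟨V, hV, hV'⟩ := mem_coOpen.1 (mem_le.1 h1 y hya)
  exact hV' y hV hy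

/-- The inverse image under an open continuous map. -/
def pull (f : Y → Z) (hc : Continuous f) (ho : IsOpenMap f) (a : RO Z) : RO Y :=
  ⟨Opens.comap ⟨f, hc⟩ (a : Opens Z), by
    have key : ∀ U : Opens Z, (Opens.comap ⟨f, hc⟩ U)ᶜ = Opens.comap ⟨f, hc⟩ Uᶜ := by
      intro U
      apply Opens.ext
      rw [Opens.coe_compl_eq_interior_compl, Opens.coe_comap, Opens.coe_comap,
        Opens.coe_compl_eq_interior_compl]
      change interior (f ⁻¹' (U : Set Z))ᶜ = f ⁻¹' interior (U : Set Z)ᶜ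
      rw [ho.preimage_interior_eq_interior_preimage hc]
      rfl
    rw [Heyting.IsRegular, key, key, a.prop.eq]⟩

section Pull

variable {f : Y → Z} (hc : Continuous f) (ho : IsOpenMap f)

theorem mem_pull {a : RO Z} {y : Y} : Mem y (pull f hc ho a) ↔ Mem (f y) a := Iff.rfl

theorem pull_compl (a : RO Z) : pull f hc ho aᶜ = (pull f hc ho a)ᶜ := by
  apply mem_ext
  intro y
  rw [mem_pull, mem_compl, mem_compl]
  constructor
  · rintro ⟨V, hV, h⟩
    exact ⟨Opens.comap ⟨f, hc⟩ V, hV, fun z hz => h _ hz⟩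
  · rintro ⟨V, hV, h⟩
    refine ⟨⟨f '' V, ho _ V.2⟩, ⟨y, hV, rfl⟩, ?_⟩
    rintro _ ⟨z, hz, rfl⟩
    exact h z hz

theorem pull_lub {s : Set (RO Z)} {a : RO Z} (h : IsLUB s a) :
    IsLUB (pull f hc ho '' s) (pull f hc ho a) := by
  refine ⟨?_, ?_⟩
  · rintro _ ⟨u, hu, rfl⟩
    intro y hy
    exact h.1 hu hy
  · intro w hw
    by_contra hcon
    obtain ⟨y, hy, hy'⟩ := exists_of_not_le hcon
    obtain ⟨V, hV, hVw⟩ := mem_compl.1 hy'
    obtain ⟨u, hu, z, ⟨z', hz', rfl⟩, hzu⟩ := exists_of_isLUB h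
      (U := ⟨f '' V, ho _ V.2⟩) (y := f y) ⟨y, hV, rfl⟩ hy
    exact hVw z' hz' (mem_le.1 (hw ⟨u, hu, rfl⟩) z' hzu)

theorem pull_hom (m : Cardinal.{0}) : IsMHom m (pull f hc ho) :=
  IsMHom.mk' (pull_compl hc ho) fun _ _ _ h => pull_lub hc ho h

theorem pull_injective (hs : Function.Surjective f) : Function.Injective (pull f hc ho) := by
  intro a b hab
  apply mem_ext
  intro z
  obtain ⟨y, rfl⟩ := hs z
  rw [← mem_pull hc ho, ← mem_pull hc ho, hab]

end Pull

end RO

/-! ### The Cantor space -/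

/-- the Cantor space -/
abbrev X : Type := ℕ → Bool

theorem exists_cyl {U : Set X} (hU : IsOpen U) {x : X} (hx : x ∈ U) :
    ∃ N : ℕ, ∀ z : X, (∀ n < N, z n = x n) → z ∈ U := by
  obtain ⟨I, u, h1, h2⟩ := isOpen_pi_iff.1 hU x hx
  refine ⟨I.sup id + 1, fun z hz => h2 ?_⟩
  intro n hn
  have hn' : n ∈ I := hn
  rw [hz n (Nat.lt_succ_of_le (Finset.le_sup (f := id) hn'))]
  exact (h1 n hn').2

theorem coord_cont (n : ℕ) : Continuous fun x : X => x n := continuous_apply n

theorem isOpen_coord (n : ℕ) (c : Bool) : IsOpen {x : X | x n = c} :=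
  (isOpen_discrete ({c} : Set Bool)).preimage (coord_cont n)

/-- the `n`-th generator of the Cohen algebra -/
def C (n : ℕ) : RO X :=
  ⟨⟨{x : X | x n = true}, isOpen_coord n true⟩, by
    have key : ∀ c, (⟨{x : X | x n = c}, isOpen_coord n c⟩ : Opens X)ᶜ =
        ⟨{x : X | x n = !c}, isOpen_coord n (!c)⟩ := by
      intro c
      apply Opens.ext
      rw [Opens.coe_compl_eq_interior_compl]
      change interior {x : X | x n = c}ᶜ = {x : X | x n = !c}
      have : {x : X | x n = c}ᶜ = {x : X | x n = !c} := by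
        ext x
        change ¬ (x n = c) ↔ x n = !c
        cases x n <;> cases c <;> simp
      rw [this]
      exact (isOpen_coord n (!c)).interior_eq
    rw [Heyting.IsRegular, key, key, Bool.not_not]⟩

theorem mem_C {n : ℕ} {x : X} : Mem x (C n) ↔ x n = true := Iff.rfl

theorem mem_C_compl {n : ℕ} {x : X} : Mem x (C n)ᶜ ↔ x n = false := by
  rw [mem_compl]
  constructor
  · rintro ⟨V, hV, h⟩
    have := h x hV
    rw [mem_C, Bool.not_eq_true] at this
    exact this
  · intro hx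
    refine ⟨⟨{x : X | x n = false}, isOpen_coord n false⟩, hx, fun z hz => ?_⟩
    rw [mem_C, Bool.not_eq_true]
    exact hz

/-- change the coordinates in `q` -/
def flip (q : Finset ℕ) (x : X) : X := fun n => if n ∈ q then !x n else x n

theorem flip_flip (q : Finset ℕ) (x : X) : flip q (flip q x) = x := by
  funext n
  unfold flip
  split_ifs <;> simp

theorem flip_cont (q : Finset ℕ) : Continuous (flip q) := by
  refine continuous_pi fun n => ?_
  unfold flip
  by_cases h : n ∈ q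
  · simp only [h, if_true]
    exact (continuous_of_discreteTopology (f := fun b : Bool => !b)).comp (coord_cont n)
  · simp only [h, if_false]
    exact coord_cont n

theorem flip_open (q : Finset ℕ) : IsOpenMap (flip q) := by
  intro U hU
  have : flip q '' U = flip q ⁻¹' U := by
    ext x
    constructor
    · rintro ⟨y, hy, rfl⟩
      change flip q (flip q y) ∈ U
      rwa [flip_flip]
    · intro hx
      exact ⟨flip q x, hx, flip_flip q x⟩
  rw [this]
  exact hU.preimage (flip_cont q)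

theorem flip_surj (q : Finset ℕ) : Function.Surjective (flip q) := fun x => ⟨flip q x, flip_flip q x⟩

/-! ### The product of two Cohen algebras over the finite flips -/

/-- the algebra `B`: the power `RO X ^ (Finset ℕ)` -/
abbrev B : Type := Finset ℕ → RO X

/-- the two maps of `X` -/
def mp : Bool → Finset ℕ → X → X
  | false, _ => id
  | true, q => flip q

theorem mp_cont (t : Bool) (q : Finset ℕ) : Continuous (mp t q) := by
  cases t
  · exact continuous_id
  · exact flip_cont q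

theorem mp_open (t : Bool) (q : Finset ℕ) : IsOpenMap (mp t q) := by
  cases t
  · exact IsOpenMap.id
  · exact flip_open q

theorem mp_surj (t : Bool) (q : Finset ℕ) : Function.Surjective (mp t q) := by
  cases t
  · exact Function.surjective_id
  · exact flip_surj q

/-- the embeddings of the two factors into `B` -/
def i (t : Bool) (a : RO X) : B := fun q => pull (mp t q) (mp_cont t q) (mp_open t q) a

theorem mem_i {t : Bool} {a : RO X} {q : Finset ℕ} {x : X} : Mem x (i t a q) ↔ Mem (mp t q x) a :=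
  Iff.rfl

theorem i_compl (t : Bool) (a : RO X) : i t aᶜ = (i t a)ᶜ :=
  funext fun q => pull_compl (mp_cont t q) (mp_open t q) a

theorem i_lub (t : Bool) {s : Set (RO X)} {a : RO X} (h : IsLUB s a) : IsLUB (i t '' s) (i t a) := by
  rw [isLUB_pi]
  intro q
  have h1 := pull_lub (mp_cont t q) (mp_open t q) h
  have h2 : Function.eval q '' (i t '' s) = pull (mp t q) (mp_cont t q) (mp_open t q) '' s := by
    rw [image_image]
    rfl
  rw [h2]
  exact h1

theorem i_hom (m : Cardinal.{0}) (t : Bool) : IsMHom m (i t) :=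
  IsMHom.mk' (i_compl t) fun _ _ _ h => i_lub t h

theorem i_injective (t : Bool) : Function.Injective (i t) := fun _ _ h =>
  pull_injective (mp_cont t ∅) (mp_open t ∅) (mp_surj t ∅) (congrFun h ∅)

theorem isMAlg_B (m : Cardinal.{0}) : IsMAlg m B := by
  intro s _
  constructor
  · choose a ha using fun q : Finset ℕ => exists_isLUB (Function.eval q '' s)
    exact ⟨a, isLUB_pi.2 ha⟩
  · choose a ha using fun q : Finset ℕ => exists_isGLB (Function.eval q '' s)
    exact ⟨a, isGLB_pi.2 ha⟩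

theorem i_indep {a b : RO X} (ha : a ≠ ⊥) (hb : b ≠ ⊥) : i false a ⊓ i true b ≠ ⊥ := by
  obtain ⟨x, hx⟩ := ne_bot_iff.1 ha
  obtain ⟨y, hy⟩ := ne_bot_iff.1 hb
  obtain ⟨N, hN⟩ := exists_cyl (b : Opens X).2 hy
  intro h
  let q : Finset ℕ := (Finset.range N).filter fun n => x n ≠ y n
  have h1 : Mem x ((i false a ⊓ i true b) q) := by
    refine ⟨hx, hN _ fun n hn => ?_⟩
    change (if n ∈ q then !x n else x n) = y n
    by_cases h2 : x n = y n
    · rw [if_neg]
      · exact h2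
      · intro h3
        exact (Finset.mem_filter.1 h3).2 h2
    · rw [if_pos (Finset.mem_filter.2 ⟨Finset.mem_range.2 hn, h2⟩)]
      revert h2
      cases x n <;> cases y n <;> simp
  rw [h] at h1
  exact not_mem_bot x h1

/-- the symmetric difference of the `n`-th generators of the two factors, or its complement -/
def d (q : Finset ℕ) (n : ℕ) : B :=
  if n ∈ q then (i false (C n) ⊓ i true (C n)) ⊔ (i false (C n)ᶜ ⊓ i true (C n)ᶜ)
  else (i false (C n) ⊓ i true (C n)ᶜ) ⊔ (i false (C n)ᶜ ⊓ i true (C n))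

/-- the element of `B` which is `⊥` at `q` and `⊤` elsewhere -/
noncomputable def E (q : Finset ℕ) : B := fun p => if p = q then ⊥ else ⊤

theorem i_false (a : RO X) (p : Finset ℕ) : i false a p = a := mem_ext fun _ => Iff.rfl

theorem i_true_C (n : ℕ) (p : Finset ℕ) : i true (C n) p = if n ∈ p then (C n)ᶜ else C n := by
  apply mem_ext
  intro x
  rw [mem_i, mem_C]
  change (if n ∈ p then !x n else x n) = true ↔ _
  by_cases h : n ∈ p
  · rw [if_pos h, if_pos h, mem_C_compl]
    cases x n <;> simp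
  · rw [if_neg h, if_neg h, mem_C]

theorem bool1 {A : Type} [BooleanAlgebra A] (c : A) : (c ⊓ cᶜ) ⊔ (cᶜ ⊓ cᶜᶜ) = ⊥ := by simp

theorem bool2 {A : Type} [BooleanAlgebra A] (c : A) : (c ⊓ c) ⊔ (cᶜ ⊓ cᶜ) = ⊤ := by simp

theorem bool3 {A : Type} [BooleanAlgebra A] (c : A) : (c ⊓ cᶜᶜ) ⊔ (cᶜ ⊓ cᶜ) = ⊤ := by simp

theorem bool4 {A : Type} [BooleanAlgebra A] (c : A) : (c ⊓ cᶜ) ⊔ (cᶜ ⊓ c) = ⊥ := by simp

theorem bool5 {A : Type} [BooleanAlgebra A] (c : A) : (⊥ : A)ᶜ ⊓ c = c := by simp

theorem bool6 {A : Type} [BooleanAlgebra A] (c : A) : (⊤ : A)ᶜ ⊓ c = ⊥ := by simp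

theorem d_apply (q : Finset ℕ) (n : ℕ) (p : Finset ℕ) :
    d q n p = if (n ∈ p ↔ n ∈ q) then ⊥ else ⊤ := by
  have e2 : ∀ t a, i t aᶜ p = (i t a p)ᶜ := fun t a => congrFun (i_compl t a) p
  have e3 : d q n p = if n ∈ q then (i false (C n) p ⊓ i true (C n) p) ⊔ (i false (C n)ᶜ p ⊓
      i true (C n)ᶜ p) else (i false (C n) p ⊓ i true (C n)ᶜ p) ⊔ (i false (C n)ᶜ p ⊓
      i true (C n) p) := by
    unfold d
    split_ifs <;> rfl
  rw [e3, e2, e2, i_false, i_true_C]
  by_cases hq : n ∈ q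
  · rw [if_pos hq]
    by_cases hp : n ∈ p
    · rw [if_pos hp, if_pos (iff_of_true hp hq)]
      exact bool1 (C n)
    · rw [if_neg hp, if_neg (fun h => hp (h.2 hq))]
      exact bool2 (C n)
  · rw [if_neg hq]
    by_cases hp : n ∈ p
    · rw [if_pos hp, if_neg (fun h => hq (h.1 hp))]
      exact bool3 (C n)
    · rw [if_neg hp, if_pos (iff_of_false hp hq)]
      exact bool4 (C n)

theorem E_apply (q p : Finset ℕ) : E q p = if p = q then ⊥ else ⊤ := rfl

theorem lub_E (q : Finset ℕ) : IsLUB (range (d q)) (E q) := by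
  refine ⟨?_, ?_⟩
  · rintro _ ⟨n, rfl⟩
    intro p
    rw [d_apply, E_apply]
    by_cases hp : p = q
    · subst hp
      simp
    · rw [if_neg hp]
      exact le_top
  · intro w hw p
    rw [E_apply]
    by_cases hp : p = q
    · rw [if_pos hp]
      exact bot_le
    · rw [if_neg hp]
      obtain ⟨n, hn⟩ : ∃ n, ¬ (n ∈ p ↔ n ∈ q) := by
        by_contra hcon
        push Not at hcon
        exact hp (Finset.ext hcon)
      have h1 : d q n p ≤ w p := hw ⟨n, rfl⟩ p
      rwa [d_apply, if_neg hn] at h1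

theorem glb_E : IsGLB (range E) ⊥ := by
  refine ⟨fun _ _ => bot_le, ?_⟩
  intro w hw p
  have h1 : w p ≤ E p p := hw ⟨p, rfl⟩ p
  rwa [E_apply, if_pos rfl] at h1

theorem countable_card {m : Cardinal.{0}} (hm : ℵ₀ ≤ m) {ι Y : Type} [Countable ι] (f : ι → Y) :
    #(range f) ≤ m := (countable_range f).le_aleph0.trans hm

/-- all but finitely many generators split a nonzero element -/
theorem exists_split {a : RO X} (ha : a ≠ ⊥) : ∃ N, ∀ n, N ≤ n → a ⊓ C n ≠ ⊥ ∧ a ⊓ (C n)ᶜ ≠ ⊥ := by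
  obtain ⟨x, hx⟩ := ne_bot_iff.1 ha
  obtain ⟨N, hN⟩ := exists_cyl (a : Opens X).2 hx
  refine ⟨N, fun n hn => ?_⟩
  have key : ∀ c : Bool, Mem (Function.update x n c) a := fun c => hN _ fun k hk => by
    rw [Function.update_of_ne (by omega)]
  constructor
  · refine ne_bot_iff.2 ⟨Function.update x n true, key true, ?_⟩
    exact mem_C.2 (Function.update_self _ _ _)
  · refine ne_bot_iff.2 ⟨Function.update x n false, key false, ?_⟩
    exact mem_C_compl.2 (Function.update_self _ _ _)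

/-- There is no `m`-homomorphism from `B` to a product in which the finite meets are dense. -/
theorem no_hom {m : Cardinal.{0}} (hm : ℵ₀ ≤ m) {M : Type} [BooleanAlgebra M] (j : Bool → RO X → M)
    (hj : ∀ t, IsMHom m (j t))
    (hind : ∀ a b : RO X, a ≠ ⊥ → b ≠ ⊥ → j false a ⊓ j true b ≠ ⊥)
    (hd : ∀ w : M, w ≠ ⊥ → ∃ a b : RO X, j false a ⊓ j true b ≠ ⊥ ∧ j false a ⊓ j true b ≤ w)
    (h : B → M) (hh : IsMHom m h) (hc : ∀ t a, h (i t a) = j t a) : False := by
  have hE : ∀ q, h (E q) = ⊤ := by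
    intro q
    by_contra hcon
    have hw : (h (E q))ᶜ ≠ ⊥ := fun h0 => hcon (compl_eq_bot.1 h0)
    obtain ⟨a, b, h1, h2⟩ := hd _ hw
    have ha : a ≠ ⊥ := by
      rintro rfl
      rw [(hj false).map_bot, bot_inf_eq] at h1
      exact h1 rfl
    have hb : b ≠ ⊥ := by
      rintro rfl
      rw [(hj true).map_bot, inf_bot_eq] at h1
      exact h1 rfl
    obtain ⟨N, hN⟩ := exists_split ha
    obtain ⟨N', hN'⟩ := exists_split hb
    have ha' := hN (max N N') (le_max_left _ _)
    have hb' := hN' (max N N') (le_max_right _ _)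
    generalize max N N' = n at ha' hb'
    have key : ∀ c c' : RO X, a ⊓ c ≠ ⊥ → b ⊓ c' ≠ ⊥ → i false c ⊓ i true c' ≤ d q n → False := by
      intro c c' h3 h4 h5
      have h6 := hind _ _ h3 h4
      apply h6
      have h7 : j false (a ⊓ c) ⊓ j true (b ⊓ c') ≤ h (E q) := by
        refine le_trans (inf_le_inf ((hj false).mono hm inf_le_right)
          ((hj true).mono hm inf_le_right)) ?_
        rw [← hc, ← hc, ← hh.map_inf hm]
        exact hh.mono hm (h5.trans ((lub_E q).1 ⟨n, rfl⟩))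
      have h8 : j false (a ⊓ c) ⊓ j true (b ⊓ c') ≤ (h (E q))ᶜ :=
        (inf_le_inf ((hj false).mono hm inf_le_left) ((hj true).mono hm inf_le_left)).trans h2
      have h9 := le_inf h7 h8
      rw [inf_compl_self] at h9
      exact le_bot_iff.1 h9
    by_cases hq : n ∈ q
    · refine key (C n) (C n) ha'.1 hb'.1 ?_
      unfold d
      rw [if_pos hq]
      exact le_sup_left
    · refine key (C n) (C n)ᶜ ha'.1 hb'.2 ?_
      unfold d
      rw [if_neg hq]
      exact le_sup_left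
  have h1 := hh.glb _ _ (countable_card hm E) glb_E
  rw [hh.map_bot] at h1
  have h2 : (⊤ : M) ≤ ⊥ := h1.2 (by
    rintro _ ⟨_, ⟨q, rfl⟩, rfl⟩
    rw [hE])
  refine hind ⊤ ⊤ ?_ ?_ (le_bot_iff.1 (le_top.trans h2)) <;>
    exact ne_bot_iff.2 ⟨fun _ => true, mem_top _⟩

/-- The images of the two factors generate `B`. -/
theorem gen_B {m : Cardinal.{0}} (hm : ℵ₀ ≤ m) : Gen m i := by
  intro S h1 h2 h3
  have hsup : ∀ a b, a ∈ S → b ∈ S → a ⊔ b ∈ S := fun a b ha hb =>
    h3 {a, b} (by rintro x (rfl | rfl) <;> assumption) (card_pair_le hm a b) _ isLUB_pair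
  have hinf : ∀ a b, a ∈ S → b ∈ S → a ⊓ b ∈ S := fun a b ha hb => by
    have := h2 _ (hsup _ _ (h2 _ ha) (h2 _ hb))
    rwa [compl_sup, compl_compl, compl_compl] at this
  have hE : ∀ q, E q ∈ S := by
    intro q
    refine h3 (range (d q)) ?_ (countable_card hm _) _ (lub_E q)
    rintro _ ⟨n, rfl⟩
    unfold d
    split_ifs
    · exact hsup _ _ (hinf _ _ (h1 _ _) (h1 _ _)) (hinf _ _ (h1 _ _) (h1 _ _))
    · exact hsup _ _ (hinf _ _ (h1 _ _) (h1 _ _)) (hinf _ _ (h1 _ _) (h1 _ _))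
  intro b
  have hb : IsLUB (range fun q => (E q)ᶜ ⊓ i false (b q)) b := by
    have hap : ∀ q p, ((E q)ᶜ ⊓ i false (b q)) p = if p = q then b q else ⊥ := by
      intro q p
      change ((E q p)ᶜ ⊓ i false (b q) p : RO X) = _
      rw [E_apply, i_false]
      by_cases hp : p = q
      · rw [if_pos hp, if_pos hp]
        exact bool5 (b q)
      · rw [if_neg hp, if_neg hp]
        exact bool6 (b q)
    refine ⟨?_, ?_⟩
    · rintro _ ⟨q, rfl⟩
      intro p
      change ((E q)ᶜ ⊓ i false (b q)) p ≤ b p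
      rw [hap]
      by_cases hp : p = q
      · rw [if_pos hp, hp]
      · rw [if_neg hp]
        exact bot_le
    · intro w hw p
      have h4 : ((E p)ᶜ ⊓ i false (b p)) p ≤ w p := hw ⟨p, rfl⟩ p
      rwa [hap, if_pos rfl] at h4
  refine h3 _ ?_ (countable_card hm _) _ hb
  rintro _ ⟨q, rfl⟩
  exact hinf _ _ (h2 _ (hE q)) (h1 _ _)

/-! ### The minimal product -/

/-- the regular open subsets of the square -/
abbrev M0 : Type := RO (X × X)

/-- the two projections -/
def pr : Bool → X × X → X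
  | false => Prod.fst
  | true => Prod.snd

theorem pr_cont (t : Bool) : Continuous (pr t) := by
  cases t
  · exact continuous_fst
  · exact continuous_snd

theorem pr_open (t : Bool) : IsOpenMap (pr t) := by
  cases t
  · exact isOpenMap_fst
  · exact isOpenMap_snd

theorem pr_surj (t : Bool) : Function.Surjective (pr t) := by
  intro x
  cases t
  · exact ⟨(x, x), rfl⟩
  · exact ⟨(x, x), rfl⟩

/-- the embeddings of the two factors into `M0` -/
def j0 (t : Bool) (a : RO X) : M0 := pull (pr t) (pr_cont t) (pr_open t) a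

theorem j0_hom (m : Cardinal.{0}) (t : Bool) : IsMHom m (j0 t) :=
  pull_hom (pr_cont t) (pr_open t) m

theorem j0_injective (t : Bool) : Function.Injective (j0 t) :=
  pull_injective (pr_cont t) (pr_open t) (pr_surj t)

theorem isMAlg_M0 (m : Cardinal.{0}) : IsMAlg m M0 := fun s _ => ⟨exists_isLUB s, exists_isGLB s⟩

theorem j0_indep {a b : RO X} (ha : a ≠ ⊥) (hb : b ≠ ⊥) : j0 false a ⊓ j0 true b ≠ ⊥ := by
  obtain ⟨x, hx⟩ := ne_bot_iff.1 ha
  obtain ⟨y, hy⟩ := ne_bot_iff.1 hb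
  exact ne_bot_iff.2 ⟨(x, y), hx, hy⟩

theorem isOpen_cyl (N : ℕ) (s : Finset ℕ) : IsOpen {x : X | ∀ n < N, x n = decide (n ∈ s)} := by
  have : {x : X | ∀ n < N, x n = decide (n ∈ s)} =
      ⋂ n ∈ Finset.range N, {x : X | x n = decide (n ∈ s)} := by
    ext x
    simp
  rw [this]
  exact isOpen_biInter_finset fun n _ => isOpen_coord n _

theorem isClosed_cyl (N : ℕ) (s : Finset ℕ) : IsClosed {x : X | ∀ n < N, x n = decide (n ∈ s)} := by
  have : {x : X | ∀ n < N, x n = decide (n ∈ s)} =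
      ⋂ n ∈ Finset.range N, {x : X | x n = !decide (n ∈ s)}ᶜ := by
    ext x
    simp only [Set.mem_ofPred_eq, Finset.mem_range, mem_iInter, mem_compl_iff, Bool.not_eq_not]
  rw [this]
  exact isClosed_biInter fun n _ => (isOpen_coord n _).isClosed_compl

/-- cylinders -/
def cyl (N : ℕ) (s : Finset ℕ) : RO X :=
  ⟨⟨{x : X | ∀ n < N, x n = decide (n ∈ s)}, isOpen_cyl N s⟩, by
    have h1 : (⟨{x : X | ∀ n < N, x n = decide (n ∈ s)}, isOpen_cyl N s⟩ : Opens X)ᶜ =
        ⟨{x : X | ∀ n < N, x n = decide (n ∈ s)}ᶜ, (isClosed_cyl N s).isOpen_compl⟩ := by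
      apply Opens.ext
      rw [Opens.coe_compl_eq_interior_compl]
      exact (isClosed_cyl N s).isOpen_compl.interior_eq
    rw [Heyting.IsRegular, h1]
    apply Opens.ext
    rw [Opens.coe_compl_eq_interior_compl]
    change interior {x : X | ∀ n < N, x n = decide (n ∈ s)}ᶜᶜ = _
    rw [compl_compl, (isOpen_cyl N s).interior_eq]
    rfl⟩

theorem exists_cyl' {U : Set X} (hU : IsOpen U) {x : X} (hx : x ∈ U) :
    ∃ N s, Mem x (cyl N s) ∧ ∀ z, Mem z (cyl N s) → z ∈ U := by
  obtain ⟨N, hN⟩ := exists_cyl hU hx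
  have key : ∀ n < N, decide (n ∈ (Finset.range N).filter fun n => x n = true) = x n := by
    intro n hn
    by_cases h : x n = true
    · rw [h]
      exact decide_eq_true (Finset.mem_filter.2 ⟨Finset.mem_range.2 hn, h⟩)
    · rw [Bool.not_eq_true] at h
      rw [h]
      exact decide_eq_false fun h' => by
        rw [(Finset.mem_filter.1 h').2] at h
        exact Bool.noConfusion h
  refine ⟨N, (Finset.range N).filter fun n => x n = true, ?_, ?_⟩
  · intro n hn
    exact (key n hn).symm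
  · intro z hz
    exact hN z fun n hn => (hz n hn).trans (key n hn)

/-- Each point of a regular open subset of the square has a rectangular neighbourhood in it. -/
theorem exists_rect (O : Opens (X × X)) {x y : X} (h : (x, y) ∈ O) :
    ∃ N s N' s', Mem x (cyl N s) ∧ Mem y (cyl N' s') ∧
      ∀ p : X × X, Mem p.1 (cyl N s) → Mem p.2 (cyl N' s') → p ∈ O := by
  obtain ⟨U, V, hU, hV, hx, hy, hUV⟩ := isOpen_prod_iff.1 O.2 x y h
  obtain ⟨N, s, h1, h2⟩ := exists_cyl' hU hx
  obtain ⟨N', s', h3, h4⟩ := exists_cyl' hV hy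
  exact ⟨N, s, N', s', h1, h3, fun p hp hp' => hUV ⟨h2 _ hp, h4 _ hp'⟩⟩

theorem j0_dense {w : M0} (hw : w ≠ ⊥) : ∃ a b : RO X, a ≠ ⊥ ∧ b ≠ ⊥ ∧ j0 false a ⊓ j0 true b ≤ w := by
  obtain ⟨⟨x, y⟩, h⟩ := ne_bot_iff.1 hw
  obtain ⟨N, s, N', s', h1, h2, h3⟩ := exists_rect _ h
  exact ⟨cyl N s, cyl N' s', ne_bot_iff.2 ⟨x, h1⟩, ne_bot_iff.2 ⟨y, h2⟩, fun p hp => h3 p hp.1 hp.2⟩

/-- The images of the two factors generate `M0`. -/
theorem gen_M0 {m : Cardinal.{0}} (hm : ℵ₀ ≤ m) : Gen m j0 := by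
  intro S h1 h2 h3
  have hsup : ∀ a b, a ∈ S → b ∈ S → a ⊔ b ∈ S := fun a b ha hb =>
    h3 {a, b} (by rintro x (rfl | rfl) <;> assumption) (card_pair_le hm a b) _ isLUB_pair
  have hinf : ∀ a b, a ∈ S → b ∈ S → a ⊓ b ∈ S := fun a b ha hb => by
    have := h2 _ (hsup _ _ (h2 _ ha) (h2 _ hb))
    rwa [compl_sup, compl_compl, compl_compl] at this
  intro w
  let f : (ℕ × Finset ℕ) × (ℕ × Finset ℕ) → M0 := fun k =>
    j0 false (cyl k.1.1 k.1.2) ⊓ j0 true (cyl k.2.1 k.2.2)
  have hf : ∀ k, f k ∈ S := fun k => hinf _ _ (h1 _ _) (h1 _ _)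
  have hcard : #({u | u ∈ range f ∧ u ≤ w} : Set M0) ≤ m :=
    (mk_le_mk_of_subset fun _ h => h.1).trans (countable_card hm f)
  refine h3 {u | u ∈ range f ∧ u ≤ w} ?_ hcard w ⟨fun u hu => hu.2, ?_⟩
  · rintro _ ⟨⟨k, rfl⟩, -⟩
    exact hf k
  · intro v hv
    by_contra hcon
    obtain ⟨⟨x, y⟩, h4, h5⟩ := exists_of_not_le hcon
    obtain ⟨O, hO, hOv⟩ := mem_compl.1 h5
    obtain ⟨N, s, N', s', h6, h7, h8⟩ := exists_rect (O ⊓ (w : Opens (X × X))) ⟨hO, h4⟩
    have h9 : f ((N, s), (N', s')) ≤ w := fun p hp => (h8 p hp.1 hp.2).2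
    have h10 : f ((N, s), (N', s')) ≤ v := hv ⟨⟨_, rfl⟩, h9⟩
    exact hOv (x, y) hO (mem_le.1 h10 (x, y) ⟨h6, h7⟩)

/-! ### Families indexed by `Bool` -/

theorem top_ne_bot_RO : (⊤ : RO X) ≠ ⊥ := ne_bot_iff.2 ⟨fun _ => true, mem_top _⟩

instance : Nontrivial (RO X) := ⟨⊤, ⊥, top_ne_bot_RO⟩

open Classical in
/-- replace the entries outside `F` by `⊤` -/
noncomputable def fill (F : Finset Bool) (a : Bool → RO X) (t : Bool) : RO X :=
  if t ∈ F then a t else ⊤

theorem fill_ne {F : Finset Bool} {a : Bool → RO X} (ha : ∀ t ∈ F, a t ≠ ⊥) (t : Bool) :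
    fill F a t ≠ ⊥ := by
  unfold fill
  split_ifs with h
  · exact ha t h
  · exact top_ne_bot_RO

theorem le_inf_fill {B' : Type} [BooleanAlgebra B'] (j : Bool → RO X → B') (F : Finset Bool)
    (a : Bool → RO X) : j false (fill F a false) ⊓ j true (fill F a true) ≤
      F.inf fun t => j t (a t) := by
  refine Finset.le_inf fun t ht => ?_
  have h1 : fill F a t = a t := if_pos ht
  rw [← h1]
  cases t
  · exact inf_le_left
  · exact inf_le_right

/-- A homomorphism from `M0` to an `m`-algebra generated by the images is surjective. -/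
theorem surj_of_gen {m : Cardinal.{0}} {C' : Type} [BooleanAlgebra C'] {k : Bool → RO X → C'}
    (hk : Gen m k) {h : M0 → C'} (hh : IsMHom m h) (hc : ∀ t a, h (j0 t a) = k t a) :
    Function.Surjective h := by
  intro c
  refine hk (range h) ?_ ?_ ?_ c
  · intro t a
    exact ⟨j0 t a, hc t a⟩
  · rintro _ ⟨w, rfl⟩
    exact ⟨wᶜ, hh.compl w⟩
  · intro s hs hsm b hb
    let g : s → M0 := fun x => (hs x.2).choose
    have hg : ∀ x : s, h (g x) = x := fun x => (hs x.2).choose_spec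
    have h1 : #(range g) ≤ m := mk_range_le.trans hsm
    obtain ⟨w, hw⟩ := exists_isLUB (range g)
    have h2 := hh.lub _ _ h1 hw
    have h3 : h '' range g = s := by
      ext x
      constructor
      · rintro ⟨_, ⟨y, rfl⟩, rfl⟩
        rw [hg]
        exact y.2
      · intro hx
        exact ⟨g ⟨x, hx⟩, ⟨_, rfl⟩, hg _⟩
    rw [h3] at h2
    exact ⟨w, h2.unique hb⟩

end Pool.Agent.H853.BoolProd
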